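import Pool.Agent.Run7.h932.DS.Gen

/-!
# MP_349e33_co: the constant is at most 1/2 for almost all `F`-free graphs, uniformly in `F`

Let `ε, K > 0`. There is `Δ₀`, which does not depend on `F`, such that for all `Δ ≥ Δ₀`, EVERY graph
`F` which contains a cycle, and all large `n`: all `F`-free graphs on `n` vertices of maximum degree
at most `Δ`, but a proportion of at most `n^(-K)`, satisfy `χ(G) ≤ (1/2 + ε) Δ / log Δ`. The same holds for
the `F`-free graphs with any prescribed degree sequence `d` with `d x ≤ Δ` and `∑ d x ≥ n`. More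
generally `F`-free can be replaced by any class of graphs which contains all graphs of maximum
degree at most `Δ` and girth more than `g`.

Proof. `GivenDegreesAndGirth` on the page MP_ef9bc2_co and its library (configuration model, second
moment by a mean field bound, isoperimetry, repair; switchings for the girth): the pairings
without a proper `q`-colouring are a proportion of at most `n^(-K-2)` of ALL pairings of the
half-edges, while a positive proportion of the pairings is simple and has girth more than `g`; and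
all simple graphs with the same degrees come from the same number of pairings. So the number of
all simple graphs with the degrees `d` which are not `q`-colourable is at most `n^(-K-1)` times
the number of those of girth more than `g`. Graphs with fewer than `n / 2` edges are rare.

The library (`Pool/Agent/Run7/h*/DS`) was written by helper59, helper381, helper441, helper594, helper228,
helper150, helper477, helper574, helper332, helper862, helper722 and helper932.
-/

set_option autoImplicit false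

namespace Pool.Agent.Results.MP_349e33_co.AlmostAllOneHalf

/-- `χ(G) ≤ (1/2 + ε) Δ / log Δ`. -/
def HalfColorable {V : Type} (G : SimpleGraph V) (Δ : ℕ) (ε : ℝ) : Prop :=
  ∃ q : ℕ, G.Colorable q ∧ (q : ℝ) ≤ (1 / 2 + ε) * ((Δ : ℝ) / Real.log (Δ : ℝ))

/-- Every cycle of `G` has length more than `g`. -/
def NoShortCycle {V : Type} (G : SimpleGraph V) (g : ℕ) : Prop :=
  ∀ (x : V) (c : G.Walk x x), c.IsCycle → g < c.length

/-- The graphs on `n` vertices of maximum degree at most `Δ`. -/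
def MaxDegree {n : ℕ} (Δ : ℕ) : Set (SimpleGraph (Fin n)) :=
  {G | ∀ x, (G.neighborSet x).ncard ≤ Δ}

/-- The graphs with the degrees `d`. -/
def WithDegrees {n : ℕ} (d : Fin n → ℕ) : Set (SimpleGraph (Fin n)) :=
  {G | ∀ x, (G.neighborSet x).ncard = d x}

/-- All graphs in `S`, but a proportion of at most `n^(-K)`, satisfy
`χ(G) ≤ (1/2 + ε) Δ / log Δ`. -/
def AlmostAll {n : ℕ} (S : Set (SimpleGraph (Fin n))) (Δ : ℕ) (ε K : ℝ) : Prop :=
  ({G | G ∈ S ∧ ¬ HalfColorable G Δ ε}.ncard : ℝ) ≤ (n : ℝ) ^ (-K) * S.ncard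

/-- `AlmostAll` holds for the graphs of the class `P` of maximum degree at most `Δ`, and for the
graphs of the class `P` with the degrees `d`, for every degree sequence `d` with all degrees at most
`Δ` and sum at least `n` (and there are such graphs if the sum is even). -/
def Typical {n : ℕ} (P : Set (SimpleGraph (Fin n))) (Δ : ℕ) (ε K : ℝ) : Prop :=
  AlmostAll (P ∩ MaxDegree Δ) Δ ε K ∧
  ∀ d : Fin n → ℕ, (∀ x, d x ≤ Δ) → n ≤ ∑ x, d x →
    (Even (∑ x, d x) → (P ∩ WithDegrees d).Nonempty) ∧ AlmostAll (P ∩ WithDegrees d) Δ ε K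

open Classical in
theorem filter_adj {n : ℕ} (G : SimpleGraph (Fin n)) (x : Fin n) :
    (Finset.univ.filter fun y => G.Adj x y).card = (G.neighborSet x).ncard := by
  rw [Set.ncard_eq_toFinset_card']
  congr 1
  ext y
  simp

theorem deg_iff {n : ℕ} {d : Fin n → ℕ} {G : SimpleGraph (Fin n)} :
    Run7.h932.DS.Deg G d ↔ G ∈ WithDegrees d := by
  unfold Run7.h932.DS.Deg WithDegrees
  simp only [filter_adj]
  exact Iff.rfl

theorem dgs_eq {n : ℕ} (G : SimpleGraph (Fin n)) (x : Fin n) :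
    Run7.h932.DS.dgs G x = (G.neighborSet x).ncard := by
  classical
  rw [← filter_adj]
  unfold Run7.h932.DS.dgs
  congr 1

theorem max_iff {n Δ : ℕ} {G : SimpleGraph (Fin n)} :
    (∀ x, Run7.h932.DS.dgs G x ≤ Δ) ↔ G ∈ MaxDegree Δ := by
  simp only [dgs_eq]
  exact Iff.rfl

theorem le_of_filter {n : ℕ} (S T : Set (SimpleGraph (Fin n)))
    (p r : SimpleGraph (Fin n) → Prop) (hp : DecidablePred p) (hr : DecidablePred r) (κ : ℝ)
    (hκ : 0 ≤ κ)
    (h : ((Finset.univ.filter p).card : ℝ) ≤ κ * ((Finset.univ.filter r).card : ℝ))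
    (hS : ∀ G ∈ S, p G) (hT : ∀ G, r G → G ∈ T) : (S.ncard : ℝ) ≤ κ * (T.ncard : ℝ) := by
  have h1 : S.ncard ≤ (Finset.univ.filter p).card := by
    rw [← Set.ncard_coe_finset]
    exact Set.ncard_le_ncard (fun G hG => by simpa using hS G hG) (Set.toFinite _)
  have h2 : (Finset.univ.filter r).card ≤ T.ncard := by
    rw [← Set.ncard_coe_finset]
    exact Set.ncard_le_ncard (fun G hG => hT G (by simpa using hG)) (Set.toFinite _)
  calc (S.ncard : ℝ) ≤ ((Finset.univ.filter p).card : ℝ) := by exact_mod_cast h1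
    _ ≤ κ * ((Finset.univ.filter r).card : ℝ) := h
    _ ≤ κ * (T.ncard : ℝ) := mul_le_mul_of_nonneg_left (by exact_mod_cast h2) hκ

/-- `Δ / log Δ` is large for large `Δ`. -/
theorem large (M : ℝ) (hM : 0 < M) : ∃ Δ₀ : ℕ, ∀ Δ : ℕ, Δ₀ ≤ Δ →
    M ≤ (Δ : ℝ) / Real.log (Δ : ℝ) := by
  have h := Real.isLittleO_log_id_atTop.def (show (0 : ℝ) < 1 / M by positivity)
  have h2 := tendsto_natCast_atTop_atTop (R := ℝ) |>.eventually h
  obtain ⟨N, hN⟩ := Filter.eventually_atTop.1 h2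
  refine ⟨max N 2, fun Δ hΔ => ?_⟩
  have h3 := hN Δ ((le_max_left _ _).trans hΔ)
  have h4 : (2 : ℝ) ≤ Δ := by exact_mod_cast (le_max_right _ _).trans hΔ
  have h5 : 0 < Real.log (Δ : ℝ) := Real.log_pos (by linarith)
  rw [Real.norm_of_nonneg h5.le, id, Real.norm_of_nonneg (by linarith), one_div,
    inv_mul_eq_div, le_div_iff₀ hM] at h3
  rw [le_div_iff₀ h5]
  linarith

theorem main (ε K : ℝ) (hε : 0 < ε) (hK : 0 < K) : ∃ Δ₀ : ℕ, ∀ Δ : ℕ, Δ₀ ≤ Δ → ∀ g : ℕ,
    ∃ n₀ : ℕ, ∀ n : ℕ, n₀ ≤ n → ∀ P : Set (SimpleGraph (Fin n)),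
      (∀ G, NoShortCycle G g → G ∈ MaxDegree Δ → G ∈ P) → Typical P Δ ε K := by
  classical
  obtain ⟨Δ₁, h⟩ := Run7.h932.DS.gen_all (ε / 2) K (by positivity) hK
  obtain ⟨Δ₂, h2⟩ := large (3 + 2 / ε) (by positivity)
  refine ⟨max Δ₁ Δ₂, fun Δ hΔ g => ?_⟩
  have hX := h2 Δ ((le_max_right _ _).trans hΔ)
  set X : ℝ := (Δ : ℝ) / Real.log (Δ : ℝ) with hXd
  have hε2 : 0 < 2 / ε := by positivity
  have hX3 : 3 ≤ X := by linarith
  have hXε : 1 ≤ ε / 2 * X := by
    have h1 : 2 / ε ≤ X := by linarith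
    rw [div_le_iff₀ hε] at h1
    linarith
  set q : ℕ := ⌈(1 / 2 + ε / 2) * X⌉₊ with hq
  have hq1 : (1 / 2 + ε / 2) * X ≤ q := Nat.le_ceil _
  have hq2 : (q : ℝ) ≤ (1 / 2 + ε) * X := by
    have := Nat.ceil_lt_add_one (show 0 ≤ (1 / 2 + ε / 2) * X by positivity)
    rw [← hq] at this
    nlinarith
  have hq3 : 2 ≤ q := by
    have h1 : (1 : ℝ) < q := by nlinarith
    have h2 : 1 < q := by exact_mod_cast h1
    omega
  obtain ⟨n₀, h⟩ := h Δ (max g 3) q ((le_max_left _ _).trans hΔ) (le_max_right _ _) hq1 hq3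
  refine ⟨n₀, fun n hn P hP => ?_⟩
  have hκ : 0 ≤ (n : ℝ) ^ (-K) := by positivity
  obtain ⟨a1, a2⟩ := h n hn (fun G => G ∈ P) (fun G b1 b2 => hP G
    (fun x c hc => lt_of_le_of_lt (le_max_left g 3) (b1 x c hc)) (max_iff.1 b2))
  have hcol : ∀ G : SimpleGraph (Fin n), ¬ HalfColorable G Δ ε → ¬ G.Colorable q :=
    fun G hG hc => hG ⟨q, hc, hq2⟩
  refine ⟨?_, fun d hd hdn => ⟨fun hev => ?_, ?_⟩⟩
  · refine le_of_filter _ _ _ _ _ _ _ hκ a2 ?_ ?_
    · rintro G ⟨⟨b1, b2⟩, b3⟩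
      exact ⟨max_iff.2 b2, b1, hcol G b3⟩
    · rintro G ⟨b1, b2⟩
      exact ⟨b2, max_iff.1 b1⟩
  · obtain ⟨G, b1, b2⟩ := (a1 d hd hdn).1 hev
    exact ⟨G, b2, deg_iff.1 b1⟩
  · refine le_of_filter _ _ _ _ _ _ _ hκ (a1 d hd hdn).2 ?_ ?_
    · rintro G ⟨⟨b1, b2⟩, b3⟩
      exact ⟨deg_iff.2 b2, b1, hcol G b3⟩
    · rintro G ⟨b1, b2⟩
      exact ⟨b2, deg_iff.1 b1⟩

/-- **The constant is at most 1/2 for almost all `F`-free graphs, uniformly in `F`.** -/
theorem result :
    ∀ ε K : ℝ, 0 < ε → 0 < K → ∃ Δ₀ : ℕ, ∀ Δ : ℕ, Δ₀ ≤ Δ →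
      -- the `F`-free graphs, for every graph `F` which contains a cycle
      (∀ (k : ℕ) (F : SimpleGraph (Fin k)), ¬ F.IsAcyclic →
        ∃ n₀ : ℕ, ∀ n : ℕ, n₀ ≤ n → Typical {G : SimpleGraph (Fin n) | F.Free G} Δ ε K) ∧
      -- all classes which contain the graphs of large girth
      (∀ g : ℕ, ∃ n₀ : ℕ, ∀ n : ℕ, n₀ ≤ n → ∀ P : Set (SimpleGraph (Fin n)),
        (∀ G, NoShortCycle G g → G ∈ MaxDegree Δ → G ∈ P) → Typical P Δ ε K) := by
  intro ε K hε hK
  obtain ⟨Δ₀, h⟩ := main ε K hε hK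
  refine ⟨Δ₀, fun Δ hΔ => ⟨fun k F hF => ?_, h Δ hΔ⟩⟩
  unfold SimpleGraph.IsAcyclic at hF
  push Not at hF
  obtain ⟨x, c, hc⟩ := hF
  obtain ⟨n₀, h⟩ := h Δ hΔ c.length
  refine ⟨n₀, fun n hn => h n hn _ fun G hG _ hcon => ?_⟩
  obtain ⟨f⟩ := hcon
  have h1 := hG _ (c.map f.toHom) ((SimpleGraph.Walk.isCycle_map_iff_of_injective
    f.injective).2 hc)
  rw [SimpleGraph.Walk.length_map] at h1
  exact lt_irrefl _ h1

end Pool.Agent.Results.MP_349e33_co.AlmostAllOneHalf
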