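import Mathlib
import Pool.Agent.Run7.h222.CF.Core

set_option autoImplicit false

/-!
# `c(F) ≤ 1` for graphs with at most one apex vertex in every block

Let `X` be a set of vertices of `F` such that `F - X` is bipartite.  If every block of `F` contains
at most one vertex of `X` then `c(F) ≤ 1`.  The same bound holds if every block is bipartite or
becomes bipartite on deleting any vertex (for instance for every cactus).  If the pieces are glued
along sets of at most `k` vertices, then `c(F) ≤ k + 1`, and `c(F) ≤ k` if these sets are not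
monochromatic.
-/

namespace Pool.Agent.Results.MP_349e33_co.OneApexPerBlock

open Pool.Agent.TH855 Run7.h222.CF Classical
open scoped ENNReal

/-- `Glued F k P`: the vertices and the edges of `F` are covered by finitely many sets
`B 0, …, B (m - 1)` of vertices (the pieces), each with the property `P`, such that every piece
`B i` with `i > 0` meets the union of the earlier pieces inside one earlier piece `B j`, in at most
`k` vertices.  For `k = 1` the pieces may be the blocks of `F`. -/
def Glued {W : Type} (F : SimpleGraph W) (k : ℕ) (P : Set W → Prop) : Prop :=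
  ∃ (m : ℕ) (B : ℕ → Set W), (∀ w, ∃ i < m, w ∈ B i) ∧
    (∀ a b, F.Adj a b → ∃ i < m, a ∈ B i ∧ b ∈ B i) ∧ (∀ i < m, P (B i)) ∧
    ∀ i < m, 0 < i → ∃ j < i, (∀ l < i, B i ∩ B l ⊆ B j) ∧ (B i ∩ B j).ncard ≤ k

/-- The same with a `3`-colouring `C`, where every piece contains at most one vertex of the colour
`0`, and the sets along which the pieces are glued have at most `k` vertices, and at most one vertex
or two vertices of different colours. -/
def GluedMixed {W : Type} (F : SimpleGraph W) (C : W → Fin 3) (k : ℕ) : Prop :=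
  ∃ (m : ℕ) (B : ℕ → Set W), (∀ w, ∃ i < m, w ∈ B i) ∧
    (∀ a b, F.Adj a b → ∃ i < m, a ∈ B i ∧ b ∈ B i) ∧
    (∀ i < m, (B i ∩ {w | C w = 0}).Subsingleton) ∧
    ∀ i < m, 0 < i → ∃ j < i, (∀ l < i, B i ∩ B l ⊆ B j) ∧ (B i ∩ B j).ncard ≤ k ∧
      ((B i ∩ B j).Subsingleton ∨ ∃ a ∈ B i ∩ B j, ∃ b ∈ B i ∩ B j, C a ≠ C b)

/-- the roles of the vertices -/
theorem roles {W : Type} (F : SimpleGraph W) (X : Set W) (hb : (F.induce Xᶜ).Colorable 2)
    (hX : ∀ a ∈ X, ∀ b ∈ X, ¬ F.Adj a b) :
    ∃ col : W → Option Bool, (∀ a b, F.Adj a b → col a ≠ col b) ∧ ∀ w, col w = none → w ∈ X := by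
  obtain ⟨g, hg⟩ := bool_col F _ hb
  refine ⟨fun w => if w ∈ X then none else some (g w), ?_, ?_⟩
  · intro a b hab
    by_cases ha : a ∈ X
    · have hb' : b ∉ X := fun h => hX a ha b h hab
      simp [ha, hb']
    · by_cases hb' : b ∈ X
      · simp [ha, hb']
      · simp only [ha, hb', if_false]
        intro h
        exact hg a ha b hb' hab (Option.some.inj h)
  · intro w h
    by_contra hw
    simp [hw] at h

theorem glued_indep {W : Type} (F : SimpleGraph W) (X : Set W) (k : ℕ)
    (h : Glued F k (fun B => (B ∩ X).Subsingleton)) : ∀ a ∈ X, ∀ b ∈ X, ¬ F.Adj a b := by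
  intro a ha b hb hab
  obtain ⟨m, B, -, hedge, hone, -⟩ := h
  obtain ⟨i, hi, h1, h2⟩ := hedge a b hab
  exact hab.ne (hone i hi ⟨h1, ha⟩ ⟨h2, hb⟩)

/-- **One apex per block.**  Let `F` be a finite graph.
1. If `F - X` is bipartite and every block of `F` contains at most one vertex of `X`, then
   `c(F) ≤ 1`.
2. If every block of `F` becomes bipartite on deleting any one of its vertices (for instance if the
   blocks are bipartite graphs and odd cycles), then `c(F) ≤ 1`.
3. If `F - X` is bipartite and `F` is composed in a tree-like way, along sets of at most `k`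
   vertices, of pieces each containing at most one vertex of `X`, then `c(F) ≤ k + 1`.
4. If moreover the sets along which the pieces are glued have at most one vertex or are not
   monochromatic in the corresponding `3`-colouring, then `c(F) ≤ k` (`k ≥ 1`). -/
theorem result {W : Type} [Fintype W] (F : SimpleGraph W) :
    (∀ X : Set W, (F.induce Xᶜ).Colorable 2 → Glued F 1 (fun B => (B ∩ X).Subsingleton) →
      c F ≤ 1) ∧
    (Glued F 1 (fun B => ∀ v ∈ B, (F.induce (B \ {v})).Colorable 2) → c F ≤ 1) ∧
    (∀ (X : Set W) (k : ℕ), (F.induce Xᶜ).Colorable 2 →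
      Glued F k (fun B => (B ∩ X).Subsingleton) → c F ≤ k + 1) ∧
    (∀ (C : W → Fin 3) (k : ℕ), 1 ≤ k → (∀ a b, F.Adj a b → C a ≠ C b) → GluedMixed F C k →
      c F ≤ k) := by
  refine ⟨?_, ?_, ?_, ?_⟩
  · intro X hb hG
    obtain ⟨col, hcol, hnone⟩ := roles F X hb (glued_indep F X 1 hG)
    obtain ⟨m, B, hcov, hedge, hone, hglue⟩ := hG
    have h := bal_bound F col 1 le_rfl hcol m B hcov hedge
      (fun i hi a ha b hb ha' hb' => hone i hi ⟨ha, hnone a ha'⟩ ⟨hb, hnone b hb'⟩) (by
        intro i hi hi0
        obtain ⟨j, hj, hsub, hcard⟩ := hglue i hi hi0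
        exact ⟨j, hj, hsub, hcard, Or.inl (Set.ncard_le_one_iff_subsingleton.1 hcard)⟩)
    simpa using h
  · rintro ⟨m, B, hcov, hedge, hflex, hglue⟩
    exact flex_bound F m B hcov hedge hflex hglue
  · intro X k hb hG
    obtain ⟨col, hcol, hnone⟩ := roles F X hb (glued_indep F X k hG)
    obtain ⟨m, B, hcov, hedge, hone, hglue⟩ := hG
    have h := gen_bound F col k hcol m B hcov hedge
      (fun i hi a ha b hb ha' hb' => hone i hi ⟨ha, hnone a ha'⟩ ⟨hb, hnone b hb'⟩) hglue
    simpa using h
  · rintro C k hk hC ⟨m, B, hcov, hedge, hone, hglue⟩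
    set col : W → Option Bool := fun w => if C w = 0 then none else some (decide (C w = 1))
      with hcoldef
    have hnone : ∀ w, col w = none → C w = 0 := by
      intro w h
      by_contra hw
      simp [hcoldef, hw] at h
    have key : ∀ p q : Fin 3, p ≠ q →
        (if p = 0 then none else some (decide (p = 1)) : Option Bool) ≠
          (if q = 0 then none else some (decide (q = 1))) := by decide
    refine bal_bound F col k hk (fun a b hab => key _ _ (hC a b hab)) m B hcov hedge
      (fun i hi a ha b hb ha' hb' => hone i hi ⟨ha, hnone a ha'⟩ ⟨hb, hnone b hb'⟩) ?_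
    intro i hi hi0
    obtain ⟨j, hj, hsub, hcard, hmix⟩ := hglue i hi hi0
    refine ⟨j, hj, hsub, hcard, ?_⟩
    rcases hmix with h | ⟨a, ha, b, hb, hab⟩
    · exact Or.inl h
    · have h1 := key _ _ hab
      rcases hca : col a with _ | p
      · exact Or.inr (Or.inl ⟨a, ha, hca⟩)
      · rcases hcb : col b with _ | q
        · exact Or.inr (Or.inl ⟨b, hb, hcb⟩)
        · have h2 : col a ≠ col b := h1
          rw [hca, hcb] at h2
          have h3 : p ≠ q := fun h => h2 (by rw [h])
          right; right
          cases p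
          · cases q
            · exact absurd rfl h3
            · exact ⟨b, hb, a, ha, hcb, hca⟩
          · cases q
            · exact ⟨a, ha, b, hb, hca, hcb⟩
            · exact absurd rfl h3

end Pool.Agent.Results.MP_349e33_co.OneApexPerBlock
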